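import Mathlib
import Pool.Graph.R_seed8.TH301.EQ.Portion

set_option autoImplicit false

/-!
The intermediate value property of the energy defect, and functions with a null image.
-/

open MeasureTheory Set Filter Topology

namespace Pool.Agent.Helper30.DM

open Pool.Agent.TH301.EQ

/-- upper semicontinuity on `[0,T]` -/
def Usc (T : ℝ) (D : ℝ → ℝ) : Prop :=
  ∀ t ∈ Icc 0 T, ∀ ε > 0, ∃ δ > 0, ∀ s ∈ Icc 0 T, |s - t| < δ → D s < D t + ε

theorem darb_left {T : ℝ} {D : ℝ → ℝ} (hU : Usc T D) (hL : ∀ p ∈ Icc 0 T, LeftOK D p)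
    {a b c : ℝ} (ha : 0 ≤ a) (hab : a ≤ b) (hb : b ≤ T) (h1 : D a < c) (h2 : c ≤ D b) :
    ∃ t ∈ Icc a b, D t = c := by
  set A : Set ℝ := {t | t ∈ Icc a b ∧ c ≤ D t} with hA
  have hbA : b ∈ A := ⟨⟨hab, le_rfl⟩, h2⟩
  have hbd : BddBelow A := ⟨a, fun t ht => ht.1.1⟩
  obtain ⟨q, hq⟩ : ∃ q, q = sInf A := ⟨_, rfl⟩
  have hqa : a ≤ q := by rw [hq]; exact le_csInf ⟨b, hbA⟩ fun t ht => ht.1.1
  have hqb : q ≤ b := by rw [hq]; exact csInf_le hbd hbA
  have hqI : q ∈ Icc 0 T := ⟨ha.trans hqa, hqb.trans hb⟩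
  have h3 : c ≤ D q := by
    by_contra hcon
    push Not at hcon
    obtain ⟨δ, hδ, h4⟩ := hU q hqI (c - D q) (by linarith)
    obtain ⟨s, hs, hsq⟩ := exists_lt_of_csInf_lt ⟨b, hbA⟩ (show sInf A < q + δ by rw [← hq]; linarith)
    have h5 : q ≤ s := by rw [hq]; exact csInf_le hbd hs
    have h6 := h4 s ⟨ha.trans hs.1.1, hs.1.2.trans hb⟩ (by rw [abs_of_nonneg (by linarith)]; linarith)
    have h7 := hs.2
    linarith
  have h4 : a < q := by
    rcases hqa.lt_or_eq with h | h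
    · exact h
    · rw [← h] at h3; linarith
  refine ⟨q, ⟨hqa, hqb⟩, le_antisymm ?_ h3⟩
  refine le_of_forall_pos_le_add fun ε hε => ?_
  obtain ⟨s, hs, _, h5⟩ := hL q hqI (min ε (q - a)) (lt_min hε (by linarith)) (by linarith)
  have h6 : a < s := by
    have := hs.1
    have := min_le_right ε (q - a)
    linarith
  have h7 : D s < c := by
    by_contra hcon
    push Not at hcon
    have : q ≤ s := by rw [hq]; exact csInf_le hbd ⟨⟨h6.le, hs.2.le.trans hqb⟩, hcon⟩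
    exact absurd this (not_le.mpr hs.2)
  have h8 := (abs_lt.mp h5).1
  have := min_le_left ε (q - a)
  linarith

theorem darb_right {T : ℝ} {D : ℝ → ℝ} (hU : Usc T D) (hR : ∀ p ∈ Icc 0 T, RightOK T D p)
    {a b c : ℝ} (ha : 0 ≤ a) (hab : a ≤ b) (hb : b ≤ T) (h1 : D b < c) (h2 : c ≤ D a) :
    ∃ t ∈ Icc a b, D t = c := by
  set A : Set ℝ := {t | t ∈ Icc a b ∧ c ≤ D t} with hA
  have haA : a ∈ A := ⟨⟨le_rfl, hab⟩, h2⟩
  have hbd : BddAbove A := ⟨b, fun t ht => ht.1.2⟩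
  obtain ⟨q, hq⟩ : ∃ q, q = sSup A := ⟨_, rfl⟩
  have hqb : q ≤ b := by rw [hq]; exact csSup_le ⟨a, haA⟩ fun t ht => ht.1.2
  have hqa : a ≤ q := by rw [hq]; exact le_csSup hbd haA
  have hqI : q ∈ Icc 0 T := ⟨ha.trans hqa, hqb.trans hb⟩
  have h3 : c ≤ D q := by
    by_contra hcon
    push Not at hcon
    obtain ⟨δ, hδ, h4⟩ := hU q hqI (c - D q) (by linarith)
    obtain ⟨s, hs, hsq⟩ := exists_lt_of_lt_csSup ⟨a, haA⟩ (show q - δ < sSup A by rw [← hq]; linarith)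
    have h5 : s ≤ q := by rw [hq]; exact le_csSup hbd hs
    have h6 := h4 s ⟨ha.trans hs.1.1, hs.1.2.trans hb⟩
      (by rw [abs_sub_comm, abs_of_nonneg (by linarith)]; linarith)
    have h7 := hs.2
    linarith
  have h4 : q < b := by
    rcases hqb.lt_or_eq with h | h
    · exact h
    · rw [h] at h3; linarith
  refine ⟨q, ⟨hqa, hqb⟩, le_antisymm ?_ h3⟩
  refine le_of_forall_pos_le_add fun ε hε => ?_
  obtain ⟨s, hs, _, h5⟩ := hR q hqI (min ε (b - q)) (lt_min hε (by linarith)) (by linarith)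
  have h6 : s < b := by
    have := hs.2
    have := min_le_right ε (b - q)
    linarith
  have h7 : D s < c := by
    by_contra hcon
    push Not at hcon
    have : s ≤ q := by rw [hq]; exact le_csSup hbd ⟨⟨hqa.trans hs.1.le, h6.le⟩, hcon⟩
    exact absurd this (not_le.mpr hs.1)
  have h8 := (abs_lt.mp h5).1
  have := min_le_left ε (b - q)
  linarith

/-- the intermediate value property -/
theorem darboux {T : ℝ} {D : ℝ → ℝ} (hU : Usc T D) (hL : ∀ p ∈ Icc 0 T, LeftOK D p)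
    (hR : ∀ p ∈ Icc 0 T, RightOK T D p) {a b : ℝ} (ha : a ∈ Icc 0 T) (hb : b ∈ Icc 0 T) :
    uIcc (D a) (D b) ⊆ D '' uIcc a b := by
  have key : ∀ a b : ℝ, 0 ≤ a → a ≤ b → b ≤ T → uIcc (D a) (D b) ⊆ D '' uIcc a b := by
    intro a b ha hab hb c hc
    rw [uIcc_of_le hab]
    rcases le_total (D a) (D b) with h | h
    · rw [uIcc_of_le h] at hc
      rcases hc.1.eq_or_lt with h1 | h1
      · exact ⟨a, ⟨le_rfl, hab⟩, h1⟩
      · obtain ⟨t, ht, h2⟩ := darb_left hU hL ha hab hb h1 hc.2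
        exact ⟨t, ht, h2⟩
    · rw [uIcc_of_ge h] at hc
      rcases hc.1.eq_or_lt with h1 | h1
      · exact ⟨b, ⟨hab, le_rfl⟩, h1⟩
      · obtain ⟨t, ht, h2⟩ := darb_right hU hR ha hab hb h1 hc.2
        exact ⟨t, ht, h2⟩
  rcases le_total a b with h | h
  · exact key a b ha.1 h hb.2
  · rw [uIcc_comm, uIcc_comm a b]
    exact key b a hb.1 h ha.2

/-- a function with the intermediate value property and a null image is constant -/
theorem const_of_null {T : ℝ} {D : ℝ → ℝ} (hU : Usc T D) (hL : ∀ p ∈ Icc 0 T, LeftOK D p)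
    (hR : ∀ p ∈ Icc 0 T, RightOK T D p) (h0 : volume (D '' Icc 0 T) = 0) {t : ℝ}
    (ht : t ∈ Icc 0 T) : D t = D 0 := by
  have h0I : (0 : ℝ) ∈ Icc 0 T := ⟨le_rfl, ht.1.trans ht.2⟩
  have h1 : uIcc (D 0) (D t) ⊆ D '' Icc 0 T := by
    refine (darboux hU hL hR h0I ht).trans (image_mono ?_)
    rw [uIcc_of_le ht.1]
    exact Icc_subset_Icc_right ht.2
  have h2 : volume (uIcc (D 0) (D t)) = 0 := measure_mono_null h1 h0
  rw [uIcc, Real.volume_Icc, ENNReal.ofReal_eq_zero] at h2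
  have h3 : max (D 0) (D t) - min (D 0) (D t) = |D 0 - D t| := max_sub_min_eq_abs' _ _
  rw [h3] at h2
  have h4 : |D 0 - D t| = 0 := le_antisymm h2 (abs_nonneg _)
  have h5 := abs_eq_zero.mp h4
  linarith

/-- the image of the times near which the function is constant is countable -/
theorem image_flat {T : ℝ} {D : ℝ → ℝ} : (D '' (Icc 0 T \ rough T D)).Countable := by
  have h : ∀ t ∈ Icc 0 T \ rough T D, ∃ δ > 0, ∀ s ∈ Icc 0 T, |s - t| < δ → D s = D t :=
    fun t ht => near_of_not_rough ht.1 ht.2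
  choose! δ hδ h1 using h
  obtain ⟨c, hc, hcc, hcov⟩ := TopologicalSpace.countable_cover_nhdsWithin
    (s := Icc 0 T \ rough T D) (f := fun t => Metric.ball t (δ t))
    (fun t ht => mem_nhdsWithin_of_mem_nhds (Metric.ball_mem_nhds t (hδ t ht)))
  refine (hcc.image D).mono ?_
  rintro _ ⟨t, ht, rfl⟩
  obtain ⟨s, hs, hst⟩ := mem_iUnion₂.mp (hcov ht)
  rw [Metric.mem_ball, Real.dist_eq] at hst
  exact ⟨s, hs, (h1 s (hc hs) t ht.1 hst).symm⟩

theorem leftOK_flat {T : ℝ} {D : ℝ → ℝ} {p : ℝ} (hp : p ∈ Icc 0 T) (h : p ∉ rough T D) :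
    LeftOK D p := by
  intro ε hε hp0
  obtain ⟨δ, hδ, h1⟩ := near_of_not_rough hp h
  have hm : 0 < min ε (min δ p) := lt_min hε (lt_min hδ hp0)
  have m1 : min ε (min δ p) ≤ ε := min_le_left _ _
  have m2 : min ε (min δ p) ≤ δ := (min_le_right _ _).trans (min_le_left _ _)
  have m3 : min ε (min δ p) ≤ p := (min_le_right _ _).trans (min_le_right _ _)
  refine ⟨p - min ε (min δ p) / 2, ⟨by linarith, by linarith⟩, by linarith, ?_⟩
  rw [h1 (p - min ε (min δ p) / 2) ⟨by linarith, by linarith [hp.2]⟩ (by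
    rw [abs_lt]; constructor <;> linarith), sub_self, abs_zero]
  exact hε

theorem rightOK_flat {T : ℝ} {D : ℝ → ℝ} {p : ℝ} (hp : p ∈ Icc 0 T) (h : p ∉ rough T D) :
    RightOK T D p := by
  intro ε hε hpT
  obtain ⟨δ, hδ, h1⟩ := near_of_not_rough hp h
  have hm : 0 < min ε (min δ (T - p)) := lt_min hε (lt_min hδ (by linarith))
  have m1 : min ε (min δ (T - p)) ≤ ε := min_le_left _ _
  have m2 : min ε (min δ (T - p)) ≤ δ := (min_le_right _ _).trans (min_le_left _ _)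
  have m3 : min ε (min δ (T - p)) ≤ T - p := (min_le_right _ _).trans (min_le_right _ _)
  refine ⟨p + min ε (min δ (T - p)) / 2, ⟨by linarith, by linarith⟩, by linarith, ?_⟩
  rw [h1 (p + min ε (min δ (T - p)) / 2) ⟨by linarith [hp.1], by linarith⟩ (by
    rw [abs_lt]; constructor <;> linarith), sub_self, abs_zero]
  exact hε

end Pool.Agent.Helper30.DM
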