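import Mathlib

set_option autoImplicit false

/-!
The weight `|τ - t|^(σ - 1)`.
-/

open MeasureTheory Set Filter Topology

namespace Pool.Agent.Helper30.DM

/-- the weight -/
noncomputable def θ (σ t τ : ℝ) : ℝ := |τ - t| ^ (σ - 1)

theorem θ_nonneg (σ t τ : ℝ) : 0 ≤ θ σ t τ := Real.rpow_nonneg (abs_nonneg _) _

theorem abs_rpow_pos {r : ℝ} (hr : -1 < r) {b : ℝ} (hb : 0 ≤ b) :
    IntervalIntegrable (fun x : ℝ => |x| ^ r) volume 0 b := by
  refine (intervalIntegral.intervalIntegrable_rpow' (a := 0) (b := b) hr).congr ?_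
  intro x hx
  rw [uIoc_of_le hb] at hx
  show x ^ r = |x| ^ r
  rw [abs_of_pos hx.1]

theorem abs_rpow_ii {r : ℝ} (hr : -1 < r) (a b : ℝ) :
    IntervalIntegrable (fun x : ℝ => |x| ^ r) volume a b := by
  have key : ∀ c : ℝ, IntervalIntegrable (fun x : ℝ => |x| ^ r) volume 0 c := by
    intro c
    rcases le_total 0 c with h | h
    · exact abs_rpow_pos hr h
    · have h0 : IntervalIntegrable (fun x : ℝ => |x| ^ r) volume 0 (-c) :=
        abs_rpow_pos hr (by linarith)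
      have h1 := h0.comp_sub_left 0
      simp only [zero_sub, abs_neg, sub_zero, neg_neg] at h1
      exact h1
  exact (key a).symm.trans (key b)

theorem θ_ii {σ : ℝ} (hσ : 0 < σ) (t a b : ℝ) : IntervalIntegrable (θ σ t) volume a b := by
  have h1 := (abs_rpow_ii (r := σ - 1) (by linarith) (a - t) (b - t)).comp_sub_right t
  simp only [sub_add_cancel] at h1
  exact h1

theorem int_pos {σ : ℝ} (hσ : 0 < σ) {b : ℝ} (hb : 0 ≤ b) :
    ∫ x in (0 : ℝ)..b, |x| ^ (σ - 1) = b ^ σ / σ := by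
  have h1 : ∫ x in (0 : ℝ)..b, |x| ^ (σ - 1) = ∫ x in (0 : ℝ)..b, x ^ (σ - 1) := by
    refine intervalIntegral.integral_congr fun x hx => ?_
    rw [uIcc_of_le hb] at hx
    show |x| ^ (σ - 1) = x ^ (σ - 1)
    rw [abs_of_nonneg hx.1]
  rw [h1, integral_rpow (Or.inl (by linarith)), sub_add_cancel, Real.zero_rpow hσ.ne', sub_zero]

theorem int_left {σ : ℝ} (hσ : 0 < σ) {s t : ℝ} (hst : s ≤ t) :
    ∫ τ in s..t, θ σ s τ = (t - s) ^ σ / σ := by
  unfold θ
  have h1 := intervalIntegral.integral_comp_sub_right (a := s) (b := t)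
    (fun x : ℝ => |x| ^ (σ - 1)) s
  rw [h1, sub_self, int_pos hσ (by linarith)]

theorem int_right {σ : ℝ} (hσ : 0 < σ) {s t : ℝ} (hst : s ≤ t) :
    ∫ τ in s..t, θ σ t τ = (t - s) ^ σ / σ := by
  unfold θ
  have h1 := intervalIntegral.integral_comp_sub_left (a := s) (b := t)
    (fun x : ℝ => |x| ^ (σ - 1)) t
  have h2 : ∀ τ : ℝ, |τ - t| = |t - τ| := fun τ => abs_sub_comm _ _
  simp_rw [h2]
  rw [h1, sub_self, int_pos hσ (by linarith)]

/-- the lower bound -/
theorem int_ge {σ : ℝ} (hσ : 0 < σ) (hσ1 : σ ≤ 1) {t x y : ℝ} (hxy : x < y)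
    (h1 : 2 * x - y < t) (h2 : t < 2 * y - x) :
    (y - x) ^ σ ≤ 2 ^ (1 - σ) * ∫ τ in x..y, θ σ t τ := by
  have hyx : 0 < y - x := by linarith
  have h3 : ∫ τ in x..y, (2 * (y - x)) ^ (σ - 1) ≤ ∫ τ in x..y, θ σ t τ := by
    refine intervalIntegral.integral_mono_ae_restrict hxy.le intervalIntegrable_const
      (θ_ii hσ t x y) ?_
    have hne : ∀ᵐ τ : ℝ, τ ≠ t := by simp [ae_iff, measure_singleton]
    filter_upwards [ae_restrict_mem measurableSet_Icc, ae_restrict_of_ae hne] with τ h4 h5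
    unfold θ
    refine Real.rpow_le_rpow_of_nonpos (abs_pos.mpr (sub_ne_zero.mpr h5)) ?_ (by linarith)
    rw [abs_le]
    constructor
    · linarith [h4.1]
    · linarith [h4.2]
  rw [intervalIntegral.integral_const, smul_eq_mul] at h3
  have h4 : (y - x) ^ σ = 2 ^ (1 - σ) * ((y - x) * (2 * (y - x)) ^ (σ - 1)) := by
    rw [Real.mul_rpow (by norm_num) hyx.le]
    have e1 : (2 : ℝ) ^ (1 - σ) * 2 ^ (σ - 1) = 1 := by
      rw [← Real.rpow_add (by norm_num)]
      norm_num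
    have e2 : (y - x) * (y - x) ^ (σ - 1) = (y - x) ^ σ := by
      conv_lhs => rw [← Real.rpow_one (y - x)]
      rw [← Real.rpow_mul hyx.le, ← Real.rpow_add hyx]
      congr 1
      ring
    calc (y - x) ^ σ = (2 ^ (1 - σ) * 2 ^ (σ - 1)) * ((y - x) * (y - x) ^ (σ - 1)) := by
          rw [e1, e2, one_mul]
      _ = _ := by ring
  rw [h4]
  exact mul_le_mul_of_nonneg_left h3 (by positivity)

end Pool.Agent.Helper30.DM
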