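import Mathlib
import Pool.Agent.Helper30.DM.Wt
import Pool.Graph.R_seed8.TH301.EQ.TameMain

set_option autoImplicit false

/-!
The energy defect is Hoelder continuous on sets of times with a growth condition for the dissipation.
-/

open MeasureTheory Set Filter Topology
open scoped InnerProductSpace ENNReal ContDiff NNReal

namespace Pool.Agent.Helper30.DM

open H772R2.NS Pool.Agent.TH340.FF Pool.Agent.TH301.EQ

/-- `∫_J g ≤ C |J|^a` for all short intervals `J ⊆ [0,T]` which contain `t` -/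
def ExpAt (T : ℝ) (g : ℝ → ℝ) (a t : ℝ) : Prop :=
  ∃ C δ : ℝ, 0 < δ ∧ ∀ x y, 0 ≤ x → x ≤ t → t ≤ y → y ≤ T → y - x ≤ δ →
    ∫ τ in x..y, g τ ≤ C * (y - x) ^ a

theorem tameAt_of_exp {T : ℝ} {g : ℝ → ℝ} (hg0 : ∀ t, 0 ≤ g t)
    (hgi : IntervalIntegrable g volume 0 T) {σ : ℝ} (hσ : 0 < σ) (hσ1 : σ ≤ 1) {t : ℝ}
    (ht : t ∈ Icc 0 T) (h : ExpAt T g ((1 + 3 * σ) / 5) t) : TameAt T g (θ σ t) t := by
  obtain ⟨C, δ, hδ, h⟩ := h
  have hC' : 0 ≤ max C 0 := le_max_right _ _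
  refine ⟨(max C 0) ^ 5 * 2 ^ (1 + 3 * σ) * (2 ^ (1 - σ)) ^ 3, δ / 2, by positivity,
    fun x y hx hxy hy h0 h1 h2 => ?_⟩
  have k1 := h (min x t) (max y t) (le_min hx ht.1) (min_le_right _ _) (le_max_right _ _)
    (max_le hy ht.2)
  have hyx : 0 < y - x := by linarith
  have k2 : max y t - min x t ≤ 2 * (y - x) := by
    rcases le_total y t with a | a
    · rw [max_eq_right a, min_eq_left (hxy.le.trans a)]; linarith
    · rw [max_eq_left a]
      rcases le_total x t with b | b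
      · rw [min_eq_left b]; linarith
      · rw [min_eq_right b]; linarith
  have k0 : 0 ≤ max y t - min x t := by
    have := le_max_left y t
    have := min_le_left x t
    linarith
  have k3 := k1 (by linarith)
  have k4 : ∫ τ in x..y, g τ ≤ ∫ τ in (min x t)..(max y t), g τ :=
    int_mono_set hgi hg0 (le_min hx ht.1) (min_le_left _ _) hxy.le (le_max_left _ _)
      (max_le hy ht.2)
  have b0 : 0 ≤ ∫ τ in x..y, g τ := intervalIntegral.integral_nonneg hxy.le fun τ _ => hg0 τ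
  have k6 : ∫ τ in x..y, g τ ≤ max C 0 * (2 * (y - x)) ^ ((1 + 3 * σ) / 5) := by
    refine (k4.trans k3).trans ?_
    have a1 : (max y t - min x t) ^ ((1 + 3 * σ) / 5) ≤ (2 * (y - x)) ^ ((1 + 3 * σ) / 5) :=
      Real.rpow_le_rpow k0 k2 (by positivity)
    have a2 : 0 ≤ (max y t - min x t) ^ ((1 + 3 * σ) / 5) := Real.rpow_nonneg k0 _
    calc C * (max y t - min x t) ^ ((1 + 3 * σ) / 5)
        ≤ max C 0 * (max y t - min x t) ^ ((1 + 3 * σ) / 5) :=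
          mul_le_mul_of_nonneg_right (le_max_left _ _) a2
      _ ≤ _ := mul_le_mul_of_nonneg_left a1 hC'
  have k7 := pow_le_pow_left₀ b0 k6 5
  refine k7.trans ?_
  have e1 : ((2 * (y - x)) ^ ((1 + 3 * σ) / 5)) ^ 5 = 2 ^ (1 + 3 * σ) * ((y - x)
      * ((y - x) ^ σ) ^ 3) := by
    rw [← Real.rpow_natCast, ← Real.rpow_mul (by positivity)]
    rw [show (1 + 3 * σ) / 5 * ((5 : ℕ) : ℝ) = 1 + 3 * σ by push_cast; ring]
    rw [Real.mul_rpow (by norm_num) hyx.le, Real.rpow_add hyx, Real.rpow_one,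
      ← Real.rpow_natCast ((y - x) ^ σ) 3, ← Real.rpow_mul hyx.le]
    congr 3
    push_cast
    ring
  rw [mul_pow, e1]
  have k8 := int_ge hσ hσ1 hxy h1 h2
  have k9 := pow_le_pow_left₀ (Real.rpow_nonneg hyx.le σ) k8 3
  rw [mul_pow] at k9
  calc (max C 0) ^ 5 * (2 ^ (1 + 3 * σ) * ((y - x) * ((y - x) ^ σ) ^ 3))
      ≤ (max C 0) ^ 5 * (2 ^ (1 + 3 * σ) * ((y - x) * ((2 ^ (1 - σ)) ^ 3
        * (∫ τ in x..y, θ σ t τ) ^ 3))) := by
        refine mul_le_mul_of_nonneg_left ?_ (by positivity)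
        refine mul_le_mul_of_nonneg_left ?_ (by positivity)
        exact mul_le_mul_of_nonneg_left k9 hyx.le
    _ = _ := by ring

theorem tame_mono {T : ℝ} {g w w' : ℝ → ℝ} (hw : ∀ τ, 0 ≤ w τ) (hww : ∀ τ, w τ ≤ w' τ)
    (hi : IntervalIntegrable w volume 0 T) (hi' : IntervalIntegrable w' volume 0 T) :
    tame T g w ⊆ tame T g w' := by
  rintro t ⟨ht, h⟩
  refine ⟨ht, fun x y hx hxy hy h1 h2 => (h x y hx hxy hy h1 h2).trans ?_⟩
  have a1 : 0 ≤ ∫ τ in x..y, w τ := intervalIntegral.integral_nonneg hxy.le fun τ _ => hw τ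
  have a2 : ∫ τ in x..y, w τ ≤ ∫ τ in x..y, w' τ :=
    intervalIntegral.integral_mono_on hxy.le (sub_int hi hx hxy.le hy) (sub_int hi' hx hxy.le hy)
      fun τ _ => hww τ
  have a3 := pow_le_pow_left₀ a1 a2 3
  exact mul_le_mul_of_nonneg_left a3 (by linarith)

/-- the weight of the point `t` -/
noncomputable def wm (σ : ℝ) (m : ℕ) (t τ : ℝ) : ℝ := (m : ℝ) * (θ σ t τ + 1)

theorem wm_nonneg (σ : ℝ) (m : ℕ) (t τ : ℝ) : 0 ≤ wm σ m t τ := by
  have := θ_nonneg σ t τ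
  unfold wm
  positivity

theorem wm_ii {σ : ℝ} (hσ : 0 < σ) (m : ℕ) (t a b : ℝ) :
    IntervalIntegrable (wm σ m t) volume a b :=
  ((θ_ii hσ t a b).add intervalIntegrable_const).const_mul _

theorem wm_left {σ : ℝ} (hσ : 0 < σ) (m : ℕ) {s t : ℝ} (hst : s ≤ t) :
    ∫ τ in s..t, wm σ m s τ = m * ((t - s) ^ σ / σ + (t - s)) := by
  unfold wm
  rw [intervalIntegral.integral_const_mul, intervalIntegral.integral_add (θ_ii hσ s s t)
    intervalIntegrable_const, int_left hσ hst, intervalIntegral.integral_const, smul_eq_mul,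
    mul_one]

theorem wm_right {σ : ℝ} (hσ : 0 < σ) (m : ℕ) {s t : ℝ} (hst : s ≤ t) :
    ∫ τ in s..t, wm σ m t τ = m * ((t - s) ^ σ / σ + (t - s)) := by
  unfold wm
  rw [intervalIntegral.integral_const_mul, intervalIntegral.integral_add (θ_ii hσ t s t)
    intervalIntegrable_const, int_right hσ hst, intervalIntegral.integral_const, smul_eq_mul,
    mul_one]

/-- the times with the growth condition, with a uniform constant -/
def FS (T : ℝ) (g : ℝ → ℝ) (σ : ℝ) (m : ℕ) : Set ℝ := {t | t ∈ tame T g (wm σ m t)}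

theorem mem_FS {T : ℝ} {g : ℝ → ℝ} (hg0 : ∀ t, 0 ≤ g t)
    (hgi : IntervalIntegrable g volume 0 T) {σ : ℝ} (hσ : 0 < σ) (hσ1 : σ ≤ 1) {t : ℝ}
    (ht : t ∈ Icc 0 T) (h : ExpAt T g ((1 + 3 * σ) / 5) t) : ∃ m, t ∈ FS T g σ m :=
  tame_of_tameAt hg0 hgi (θ_nonneg σ t) (θ_ii hσ t 0 T) ht (tameAt_of_exp hg0 hgi hσ hσ1 ht h)

variable {Ω : Set E3} {ν T M : ℝ} {u : ℝ → L2V Ω} {G : ℝ → L2M Ω} {f : ℝ → L2V Ω}

/-- powers -/
theorem pow_cmp {T L a b : ℝ} (hL : 0 < L) (hLT : L ≤ T) (hab : a ≤ b) :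
    L ^ b ≤ T ^ (b - a) * L ^ a := by
  have h1 : L ^ b = L ^ (b - a) * L ^ a := by
    rw [← Real.rpow_add hL, sub_add_cancel]
  rw [h1]
  exact mul_le_mul_of_nonneg_right (Real.rpow_le_rpow hL.le hLT (by linarith))
    (Real.rpow_nonneg hL.le _)

theorem holder (hΩ : IsOpen Ω) (hν : 0 ≤ ν) (hT : 0 < T) (h : IsWeakSolution Ω ν T u G f)
    (hM : ∀ t ∈ Icc 0 T, ‖u t‖ ≤ M)
    (hf : IntervalIntegrable (fun t => ‖f t‖ ^ 2) volume 0 T) {σ : ℝ} (hσ : 0 < σ)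
    (hσ2 : σ ≤ 1 / 2) (m : ℕ) :
    ∃ K : ℝ, 0 ≤ K ∧ ∀ s ∈ FS T (fun τ => ‖G τ‖ ^ 2) σ m, ∀ t ∈ FS T (fun τ => ‖G τ‖ ^ 2) σ m,
      s ≤ t → |defect ν u G f t - defect ν u G f s| ≤ K * (t - s) ^ σ := by
  have hM0 : 0 ≤ M := (norm_nonneg _).trans (hM 0 ⟨le_rfl, hT.le⟩)
  have hC2 := C2_nonneg
  have hGi := G2_ii hΩ hν hT h hM
  have hfi := f_ii hΩ hν hT h hM
  have hpi := pow_ii hΩ hν hT h hM
  set F2 := ∫ τ in (0 : ℝ)..T, ‖f τ‖ ^ 2 with hF2
  have hF20 : 0 ≤ F2 := intervalIntegral.integral_nonneg hT.le fun τ _ => by positivity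
  set A0 : ℝ := m * (1 / σ + T ^ (1 - σ)) with hA0
  have hA00 : 0 ≤ A0 := by positivity
  set A2 : ℝ := 1 + A0 ^ 3 * T ^ (1 - 2 * σ) with hA2
  have hA21 : 1 ≤ A2 := by
    have : 0 ≤ A0 ^ 3 * T ^ (1 - 2 * σ) := by positivity
    linarith
  set A3 : ℝ := (F2 + T ^ (1 - 2 * σ)) / 2 with hA3
  have hA30 : 0 ≤ A3 := by positivity
  refine ⟨(M * A3 + ν * A2) + 20 * (2 * C2 * (2 * A0) + ν * A2 + 2 * M * A3), by positivity, ?_⟩
  intro s hs t ht hst
  rcases hst.eq_or_lt with h0 | h0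
  · rw [h0, sub_self, abs_zero, sub_self, Real.zero_rpow hσ.ne', mul_zero]
  have hs' : s ∈ tame T (fun τ => ‖G τ‖ ^ 2) (wm σ m s) := hs
  have ht' : t ∈ tame T (fun τ => ‖G τ‖ ^ 2) (wm σ m t) := ht
  have s0 : 0 ≤ s := hs'.1.1
  have tT : t ≤ T := ht'.1.2
  obtain ⟨L, hL⟩ : ∃ L : ℝ, L = t - s := ⟨_, rfl⟩
  have hL0 : 0 < L := by rw [hL]; linarith
  have hLT : L ≤ T := by rw [hL]; linarith
  have hLσ : 0 < L ^ σ := Real.rpow_pos_of_pos hL0 _
  -- the weight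
  set w : ℝ → ℝ := fun τ => wm σ m s τ + wm σ m t τ with hw
  have hw0 : ∀ τ, 0 ≤ w τ := fun τ => add_nonneg (wm_nonneg _ _ _ _) (wm_nonneg _ _ _ _)
  have hwi : IntervalIntegrable w volume 0 T := (wm_ii hσ m s 0 T).add (wm_ii hσ m t 0 T)
  have ms : s ∈ tame T (fun τ => ‖G τ‖ ^ 2) w :=
    tame_mono (wm_nonneg σ m s) (fun τ => by
      have := wm_nonneg σ m t τ
      simp only [hw]
      linarith) (wm_ii hσ m s 0 T) hwi hs'
  have mt : t ∈ tame T (fun τ => ‖G τ‖ ^ 2) w :=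
    tame_mono (wm_nonneg σ m t) (fun τ => by
      have := wm_nonneg σ m s τ
      simp only [hw]
      linarith) (wm_ii hσ m t 0 T) hwi ht'
  have key := defect_bound hΩ hν hT h hM hw0 hwi ms mt s0 hst tT
  rw [wt2_eq hΩ hν hT h hM hwi s0 hst tT] at key
  have sGi := sub_int hGi s0 hst tT
  have sfi := sub_int hfi s0 hst tT
  have sf2 := sub_int hf s0 hst tT
  have swi := sub_int hwi s0 hst tT
  have e1 : ∫ τ in s..t, wt1 ν M G f w τ = 2 * C2 * (∫ τ in s..t, w τ)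
      + ν * (∫ τ in s..t, ‖G τ‖ ^ 2) + 2 * M * ∫ τ in s..t, ‖f τ‖ := by
    simp only [wt1]
    rw [intervalIntegral.integral_add ((swi.const_mul _).add (sGi.const_mul _))
      (sfi.const_mul (2 * M)), intervalIntegral.integral_add (swi.const_mul _)
      (sGi.const_mul _), intervalIntegral.integral_const_mul,
      intervalIntegral.integral_const_mul, intervalIntegral.integral_const_mul]
  have hbase : (m : ℝ) * (L ^ σ / σ + L) ≤ A0 * L ^ σ := by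
    have h1 := pow_cmp hL0 hLT (show σ ≤ 1 by linarith)
    rw [Real.rpow_one] at h1
    calc (m : ℝ) * (L ^ σ / σ + L) ≤ m * (L ^ σ / σ + T ^ (1 - σ) * L ^ σ) := by gcongr
      _ = A0 * L ^ σ := by rw [hA0]; ring
  have e2 : ∫ τ in s..t, w τ ≤ 2 * A0 * L ^ σ := by
    simp only [hw]
    rw [intervalIntegral.integral_add (wm_ii hσ m s s t) (wm_ii hσ m t s t),
      wm_left hσ m hst, wm_right hσ m hst, ← hL]
    linarith
  -- the dissipation
  have e3 : ∫ τ in s..t, ‖G τ‖ ^ 2 ≤ A2 * L ^ σ := by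
    have h1 := hs'.2 s t s0 h0 tT (by linarith) (by linarith)
    rw [wm_left hσ m hst, ← hL] at h1
    refine le_of_pow_le_pow_left₀ (n := 5) (by norm_num) (by positivity) (h1.trans ?_)
    have h2 : (m * (L ^ σ / σ + L)) ^ 3 ≤ (A0 * L ^ σ) ^ 3 :=
      pow_le_pow_left₀ (by positivity) hbase 3
    have h3 : L ≤ T ^ (1 - 2 * σ) * (L ^ σ) ^ 2 := by
      have := pow_cmp hL0 hLT (show 2 * σ ≤ 1 by linarith)
      rw [Real.rpow_one] at this
      rw [← Real.rpow_natCast (L ^ σ) 2, ← Real.rpow_mul hL0.le]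
      rw [show σ * ((2 : ℕ) : ℝ) = 2 * σ by push_cast; ring]
      exact this
    have h4 : A0 ^ 3 * T ^ (1 - 2 * σ) ≤ A2 ^ 5 := by
      have h5 : A2 ≤ A2 ^ 5 := by
        calc A2 = A2 ^ 1 := (pow_one _).symm
          _ ≤ A2 ^ 5 := pow_le_pow_right₀ hA21 (by norm_num)
      linarith
    calc L * (m * (L ^ σ / σ + L)) ^ 3 ≤ (T ^ (1 - 2 * σ) * (L ^ σ) ^ 2) * (A0 * L ^ σ) ^ 3 :=
          mul_le_mul h3 h2 (by positivity) (by positivity)
      _ = (A0 ^ 3 * T ^ (1 - 2 * σ)) * (L ^ σ) ^ 5 := by ring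
      _ ≤ A2 ^ 5 * (L ^ σ) ^ 5 := by gcongr
      _ = _ := by ring
  -- the force
  have e4 : ∫ τ in s..t, ‖f τ‖ ≤ A3 * L ^ σ := by
    have h1 : ∫ τ in s..t, ‖f τ‖ ≤ ∫ τ in s..t, (L ^ σ * ‖f τ‖ ^ 2 + L ^ (-σ)) / 2 := by
      refine intervalIntegral.integral_mono_on hst sfi
        (((sf2.const_mul _).add intervalIntegrable_const).div_const _) fun τ _ => ?_
      have h2 : L ^ (-σ) * L ^ σ = 1 := by
        rw [← Real.rpow_add hL0, neg_add_cancel, Real.rpow_zero]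
      have h3 : 0 ≤ (L ^ σ * ‖f τ‖ - 1) ^ 2 := sq_nonneg _
      have h4 : L ^ σ * (2 * ‖f τ‖) ≤ L ^ σ * (L ^ σ * ‖f τ‖ ^ 2 + L ^ (-σ)) := by nlinarith
      have h5 := le_of_mul_le_mul_left h4 hLσ
      linarith
    rw [intervalIntegral.integral_div, intervalIntegral.integral_add (sf2.const_mul _)
      intervalIntegrable_const, intervalIntegral.integral_const_mul,
      intervalIntegral.integral_const, smul_eq_mul, ← hL] at h1
    have h2 : ∫ τ in s..t, ‖f τ‖ ^ 2 ≤ F2 :=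
      int_mono_set hf (fun τ => by positivity) le_rfl s0 hst tT le_rfl
    have h3 : L * L ^ (-σ) ≤ T ^ (1 - 2 * σ) * L ^ σ := by
      have h4 := pow_cmp hL0 hLT (show σ ≤ 1 - σ by linarith)
      rw [show 1 - σ - σ = 1 - 2 * σ by ring] at h4
      have h5 : L * L ^ (-σ) = L ^ (1 - σ) := by
        conv_lhs => rw [← Real.rpow_one L]
        rw [← Real.rpow_mul hL0.le, ← Real.rpow_add hL0]
        congr 1
        ring
      rw [h5]
      exact h4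
    refine h1.trans ?_
    rw [hA3]
    have h6 : L ^ σ * ∫ τ in s..t, ‖f τ‖ ^ 2 ≤ L ^ σ * F2 := mul_le_mul_of_nonneg_left h2 hLσ.le
    calc (L ^ σ * (∫ τ in s..t, ‖f τ‖ ^ 2) + L * L ^ (-σ)) / 2
        ≤ (L ^ σ * F2 + T ^ (1 - 2 * σ) * L ^ σ) / 2 := by linarith
      _ = _ := by ring
  -- the power
  have e5 : ∫ τ in s..t, |pow ν u G f τ| ≤ M * (∫ τ in s..t, ‖f τ‖)
      + ν * ∫ τ in s..t, ‖G τ‖ ^ 2 := by
    rw [← intervalIntegral.integral_const_mul, ← intervalIntegral.integral_const_mul,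
      ← intervalIntegral.integral_add (sfi.const_mul _) (sGi.const_mul _)]
    refine intervalIntegral.integral_mono_on hst (sub_int hpi s0 hst tT).abs
      ((sfi.const_mul _).add (sGi.const_mul _)) fun τ hτ => ?_
    unfold H772R2.NS.pow
    have h1 : |⟪f τ, u τ⟫_ℝ| ≤ ‖f τ‖ * ‖u τ‖ := abs_real_inner_le_norm _ _
    have h2 : ‖f τ‖ * ‖u τ‖ ≤ ‖f τ‖ * M :=
      mul_le_mul_of_nonneg_left (hM τ ⟨s0.trans hτ.1, hτ.2.trans tT⟩) (norm_nonneg _)
    have h3 := abs_sub (⟪f τ, u τ⟫_ℝ) (ν * ‖G τ‖ ^ 2)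
    have h4 : |ν * ‖G τ‖ ^ 2| = ν * ‖G τ‖ ^ 2 := abs_of_nonneg (by positivity)
    rw [h4] at h3
    linarith
  rw [e1] at key
  rw [← hL]
  refine key.trans ?_
  have g1 := mul_le_mul_of_nonneg_left e4 hM0
  have g2 := mul_le_mul_of_nonneg_left e3 hν
  have g3 := mul_le_mul_of_nonneg_left e2 (show 0 ≤ 2 * C2 by positivity)
  have g4 := mul_le_mul_of_nonneg_left e4 (show 0 ≤ 2 * M by positivity)
  calc (∫ τ in s..t, |pow ν u G f τ|) + 20 * (2 * C2 * (∫ τ in s..t, w τ)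
      + ν * (∫ τ in s..t, ‖G τ‖ ^ 2) + 2 * M * ∫ τ in s..t, ‖f τ‖)
      ≤ (M * (A3 * L ^ σ) + ν * (A2 * L ^ σ)) + 20 * (2 * C2 * (2 * A0 * L ^ σ)
        + ν * (A2 * L ^ σ) + 2 * M * (A3 * L ^ σ)) := by linarith
    _ = _ := by ring

/-- the image of a set of zero Hausdorff measure -/
theorem image_zero (hΩ : IsOpen Ω) (hν : 0 ≤ ν) (hT : 0 < T) (h : IsWeakSolution Ω ν T u G f)
    (hM : ∀ t ∈ Icc 0 T, ‖u t‖ ≤ M)
    (hf : IntervalIntegrable (fun t => ‖f t‖ ^ 2) volume 0 T) {σ : ℝ} (hσ : 0 < σ)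
    (hσ2 : σ ≤ 1 / 2) (m : ℕ) {S : Set ℝ} (hS : μH[σ] S = 0) :
    volume (defect ν u G f '' (FS T (fun τ => ‖G τ‖ ^ 2) σ m ∩ S)) = 0 := by
  obtain ⟨K, hK0, hK⟩ := holder hΩ hν hT h hM hf hσ hσ2 m
  obtain ⟨r, hr⟩ : ∃ r : ℝ≥0, (r : ℝ) = σ := ⟨⟨σ, hσ.le⟩, rfl⟩
  have hH : HolderOnWith (Real.toNNReal K) r (defect ν u G f)
      (FS T (fun τ => ‖G τ‖ ^ 2) σ m ∩ S) := by
    have key : ∀ s ∈ FS T (fun τ => ‖G τ‖ ^ 2) σ m, ∀ t ∈ FS T (fun τ => ‖G τ‖ ^ 2) σ m,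
        s ≤ t → edist (defect ν u G f s) (defect ν u G f t)
          ≤ ENNReal.ofReal K * edist s t ^ σ := by
      intro s hs t ht hst
      have h1 := hK s hs t ht hst
      rw [edist_dist, Real.dist_eq, abs_sub_comm, edist_dist, Real.dist_eq, abs_sub_comm s t,
        abs_of_nonneg (sub_nonneg.mpr hst), ENNReal.ofReal_rpow_of_nonneg (sub_nonneg.mpr hst) hσ.le,
        ← ENNReal.ofReal_mul hK0]
      exact ENNReal.ofReal_le_ofReal h1
    intro x hx y hy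
    show edist (defect ν u G f x) (defect ν u G f y)
      ≤ ENNReal.ofReal K * edist x y ^ (r : ℝ)
    rw [hr]
    rcases le_total x y with h1 | h1
    · exact key x hx.1 y hy.1 h1
    · rw [edist_comm, edist_comm x y]
      exact key y hy.1 x hx.1 h1
  have h1 := hH.hausdorffMeasure_image_le (d := 1)
    (show (0 : ℝ≥0) < r from NNReal.coe_pos.mp (by rw [hr]; exact hσ)) zero_le_one
  rw [mul_one, hr] at h1
  have h2 : μH[σ] (FS T (fun τ => ‖G τ‖ ^ 2) σ m ∩ S) = 0 :=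
    measure_mono_null inter_subset_right hS
  rw [h2, mul_zero] at h1
  rw [← hausdorffMeasure_real]
  exact le_antisymm h1 bot_le

end Pool.Agent.Helper30.DM
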