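import Mathlib
import Pool.Agent.Helper30.DM.Hold
import Pool.Agent.Helper30.DM.Darb
import Pool.Graph.R_seed8.TH301.EQ.PubGood

set_option autoImplicit false
set_option linter.unusedSectionVars false

/-!
Exceptional times of small Hausdorff measure.
-/

open MeasureTheory Set Filter Topology
open scoped InnerProductSpace ENNReal ContDiff NNReal

namespace Pool.Agent.Helper30.DM

open Pool.Agent.TH301.EQ

/-- `t` lies in one of the sets `S n`, and the dissipation has there the exponent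
`(1 + 3 σ n) / 5`. -/
def Small (T : ℝ) (g : ℝ → ℝ) (σ : ℕ → ℝ) (S : ℕ → Set ℝ) (t : ℝ) : Prop :=
  ∃ n, t ∈ S n ∧ ExpAt T g ((1 + 3 * σ n) / 5) t

section NS

open H772R2.NS Pool.Agent.TH340.FF

variable {Ω : Set E3} {ν T M : ℝ} {u : ℝ → L2V Ω} {G : ℝ → L2M Ω} {f : ℝ → L2V Ω}

theorem usc_defect (hΩ : IsOpen Ω) (hν : 0 ≤ ν) (hT : 0 < T) (h : IsWeakSolution Ω ν T u G f)
    (hM : ∀ t ∈ Icc 0 T, ‖u t‖ ≤ M) : Usc T (defect ν u G f) := by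
  intro t ht ε hε
  obtain ⟨δ₁, hδ₁, h1⟩ := small_prim (pow_ii hΩ hν hT h hM) hT.le ht (half_pos hε)
  have h2 := lim_norm h ht
  rw [Metric.tendsto_nhdsWithin_nhds] at h2
  obtain ⟨δ₂, hδ₂, h2⟩ := h2 (ε / 2) (half_pos hε)
  refine ⟨min δ₁ δ₂, lt_min hδ₁ hδ₂, fun s hs hst => ?_⟩
  have a1 := h1 s hs (hst.trans_le (min_le_left _ _))
  have a2 := h2 hs (by rw [Real.dist_eq]; exact hst.trans_le (min_le_right _ _))
  rw [Real.dist_eq, sub_zero] at a2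
  have a3 : ‖u t‖ ^ 2 / 2 - ‖u s‖ ^ 2 / 2 ≤ ⟪u t - u s, u t⟫_ℝ := by
    have h3 : 0 ≤ ‖u t - u s‖ ^ 2 := by positivity
    rw [norm_sub_sq_real] at h3
    rw [inner_sub_left, real_inner_self_eq_norm_sq]
    rw [real_inner_comm (u t) (u s)] 
    linarith
  have a4 : (∫ τ in (0 : ℝ)..s, pow ν u G f τ) = (∫ τ in (0 : ℝ)..t, pow ν u G f τ)
      + ∫ τ in t..s, pow ν u G f τ := by
    have hp := pow_ii hΩ hν hT h hM
    have b1 : IntervalIntegrable (pow ν u G f) volume 0 t := sub_int hp le_rfl ht.1 ht.2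
    have b2 : IntervalIntegrable (pow ν u G f) volume 0 s := sub_int hp le_rfl hs.1 hs.2
    exact (intervalIntegral.integral_add_adjacent_intervals b1 (b1.symm.trans b2)).symm
  unfold defect
  rw [a4]
  have c1 := (abs_lt.mp a1).2
  have c2 := (abs_lt.mp a2).2
  linarith

theorem leftOK_small (hΩ : IsOpen Ω) (hν : 0 ≤ ν) (hT : 0 < T) (h : IsWeakSolution Ω ν T u G f)
    (hM : ∀ t ∈ Icc 0 T, ‖u t‖ ≤ M) {σ : ℝ} (hσ : 0 < σ) (hσ1 : σ ≤ 1) {t : ℝ}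
    (ht : t ∈ Icc 0 T) (hE : ExpAt T (fun τ => ‖G τ‖ ^ 2) ((1 + 3 * σ) / 5) t) :
    LeftOK (defect ν u G f) t := by
  obtain ⟨m, hm⟩ := mem_FS (fun τ => by positivity) (G2_ii hΩ hν hT h hM) hσ hσ1 ht hE
  exact left_tame hΩ hν hT h hM (wm_nonneg σ m t) (wm_ii hσ m t 0 T) hm

theorem rightOK_small (hΩ : IsOpen Ω) (hν : 0 ≤ ν) (hT : 0 < T) (h : IsWeakSolution Ω ν T u G f)
    (hM : ∀ t ∈ Icc 0 T, ‖u t‖ ≤ M) {σ : ℝ} (hσ : 0 < σ) (hσ1 : σ ≤ 1) {t : ℝ}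
    (ht : t ∈ Icc 0 T) (hE : ExpAt T (fun τ => ‖G τ‖ ^ 2) ((1 + 3 * σ) / 5) t) :
    RightOK T (defect ν u G f) t := by
  obtain ⟨m, hm⟩ := mem_FS (fun τ => by positivity) (G2_ii hΩ hν hT h hM) hσ hσ1 ht hE
  exact right_tame hΩ hν hT h hM (wm_nonneg σ m t) (wm_ii hσ m t 0 T) hm

theorem small_null (hΩ : IsOpen Ω) (hν : 0 ≤ ν) (hT : 0 < T) (h : IsWeakSolution Ω ν T u G f)
    (hf : IntervalIntegrable (fun t => ‖f t‖ ^ 2) volume 0 T) {σ : ℕ → ℝ}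
    (hσ : ∀ n, 0 < σ n ∧ σ n ≤ 1 / 2) {S : ℕ → Set ℝ} (hS : ∀ n, μH[σ n] (S n) = 0) :
    volume (defect ν u G f '' {t | t ∈ Icc 0 T ∧ Small T (fun τ => ‖G τ‖ ^ 2) σ S t}) = 0 := by
  obtain ⟨M, hM⟩ := h.bdd
  have hsub : {t | t ∈ Icc 0 T ∧ Small T (fun τ => ‖G τ‖ ^ 2) σ S t}
      ⊆ ⋃ n, ⋃ m, (FS T (fun τ => ‖G τ‖ ^ 2) (σ n) m ∩ S n) := by
    rintro t ⟨ht, n, hn, hE⟩
    obtain ⟨m, hm⟩ := mem_FS (fun τ => by positivity) (G2_ii hΩ hν hT h hM) (hσ n).1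
      (by linarith [(hσ n).2]) ht hE
    exact mem_iUnion₂.mpr ⟨n, m, hm, hn⟩
  refine measure_mono_null (image_mono hsub) ?_
  rw [image_iUnion]
  refine measure_iUnion_null fun n => ?_
  rw [image_iUnion]
  refine measure_iUnion_null fun m => ?_
  exact image_zero hΩ hν hT h hM hf (hσ n).1 (hσ n).2 m (hS n)

/-- the intermediate value property -/
theorem ns_darboux (hΩ : IsOpen Ω) (hν : 0 ≤ ν) (hT : 0 < T) (h : IsWeakSolution Ω ν T u G f)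
    (hJ : ∀ t ∈ Icc 0 T, NoJump T u t) {a b : ℝ} (ha : a ∈ Icc 0 T) (hb : b ∈ Icc 0 T) :
    uIcc (defect ν u G f a) (defect ν u G f b) ⊆ defect ν u G f '' uIcc a b := by
  obtain ⟨M, hM⟩ := h.bdd
  exact darboux (usc_defect hΩ hν hT h hM)
    (fun p hp => left_nojump hΩ hν hT h hM hp (hJ p hp).1)
    (fun p hp => right_nojump hΩ hν hT h hM hp (hJ p hp).2) ha hb

theorem small_eq (hΩ : IsOpen Ω) (hν : 0 ≤ ν) (hT : 0 < T) (h : IsWeakSolution Ω ν T u G f)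
    (hf : IntervalIntegrable (fun t => ‖f t‖ ^ 2) volume 0 T)
    {θ : ℕ → ℝ → ℝ} (hθ0 : ∀ n t, 0 ≤ θ n t) (hθ : ∀ n, IntervalIntegrable (θ n) volume 0 T)
    {σ : ℕ → ℝ}
    (hσ : ∀ n, 0 < σ n ∧ σ n ≤ 1 / 2) {S : ℕ → Set ℝ} (hS : ∀ n, μH[σ n] (S n) = 0)
    {N : Set ℝ} (hN : N.Countable) (hJ : ∀ t ∈ N, NoJump T u t)
    (hall : ∀ t ∈ rough T (defect ν u G f), t ∈ N ∨
      (∃ n, TameAt T (fun τ => ‖G τ‖ ^ 2) (θ n) t) ∨ Small T (fun τ => ‖G τ‖ ^ 2) σ S t) :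
    ∀ t ∈ Icc 0 T, defect ν u G f t = 0 := by
  obtain ⟨M, hM⟩ := h.bdd
  have hU := usc_defect hΩ hν hT h hM
  have hL : ∀ p ∈ Icc 0 T, LeftOK (defect ν u G f) p := by
    intro p hp
    by_cases hr : p ∈ rough T (defect ν u G f)
    · rcases hall p hr with h1 | ⟨n, h1⟩ | ⟨n, _, h1⟩
      · exact left_nojump hΩ hν hT h hM hp (hJ p h1).1
      · obtain ⟨k, hk⟩ := mem_tame_wk hΩ hν hT h hM hθ0 hθ hp h1
        exact left_tame hΩ hν hT h hM (wk_nonneg hθ0 k) (wk_ii hθ k) hk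
      · exact leftOK_small hΩ hν hT h hM (hσ n).1 (by linarith [(hσ n).2]) hp h1
    · exact leftOK_flat hp hr
  have hR : ∀ p ∈ Icc 0 T, RightOK T (defect ν u G f) p := by
    intro p hp
    by_cases hr : p ∈ rough T (defect ν u G f)
    · rcases hall p hr with h1 | ⟨n, h1⟩ | ⟨n, _, h1⟩
      · exact right_nojump hΩ hν hT h hM hp (hJ p h1).2
      · obtain ⟨k, hk⟩ := mem_tame_wk hΩ hν hT h hM hθ0 hθ hp h1
        exact right_tame hΩ hν hT h hM (wk_nonneg hθ0 k) (wk_ii hθ k) hk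
      · exact rightOK_small hΩ hν hT h hM (hσ n).1 (by linarith [(hσ n).2]) hp h1
    · exact rightOK_flat hp hr
  have h0 : volume (defect ν u G f '' Icc 0 T) = 0 := by
    have hsub : Icc 0 T ⊆ (Icc 0 T \ rough T (defect ν u G f)) ∪ (N ∪
        ({t | t ∈ Icc 0 T ∧ ((∃ z, (u t, z) ∈ H1graph Ω) ∨
          ∃ n, TameAt T (fun τ => ‖G τ‖ ^ 2) (θ n) t)} ∪
        {t | t ∈ Icc 0 T ∧ Small T (fun τ => ‖G τ‖ ^ 2) σ S t})) := by
      intro t ht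
      by_cases hr : t ∈ rough T (defect ν u G f)
      · rcases hall t hr with h1 | h1 | h1
        · exact Or.inr (Or.inl h1)
        · exact Or.inr (Or.inr (Or.inl ⟨ht, Or.inr h1⟩))
        · exact Or.inr (Or.inr (Or.inr ⟨ht, h1⟩))
      · exact Or.inl ⟨ht, hr⟩
    refine measure_mono_null (image_mono hsub) ?_
    rw [image_union, image_union, image_union]
    refine measure_union_null (image_flat.measure_zero _) (measure_union_null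
      ((hN.image _).measure_zero _) (measure_union_null (tame_null hΩ hν hT h hθ0 hθ)
      (small_null hΩ hν hT h hf hσ hS)))
  intro t ht
  rw [const_of_null hU hL hR h0 ht]
  exact Sol.defect_zero

end NS

section Pub

open H772R2.NS.Pub

variable {Ω : Set R3} {ν T : ℝ} {u : ℝ → L2 Ω R3} {G : ℝ → L2 Ω Mat} {f : ℝ → L2 Ω R3}
  {θ : ℕ → ℝ → ℝ} {N : Set ℝ} {σ : ℕ → ℝ} {S : ℕ → Set ℝ}

theorem pub_small_null (hΩ : IsOpen Ω) (hν : 0 ≤ ν) (hT : 0 < T)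
    (hu : IsWeakSolution Ω ν T u G f) (hf : IntegrableOn (fun τ => ‖f τ‖ ^ 2) (Ioo 0 T))
    (hθ0 : ∀ n t, 0 ≤ θ n t) (hθ : ∀ n, IntegrableOn (θ n) (Ioo 0 T))
    (hσ : ∀ n, 0 < σ n ∧ σ n ≤ 1 / 2) (hS : ∀ n, μH[σ n] (S n) = 0) :
    volume (energyDefect ν u G f '' {t | t ∈ Icc 0 T ∧ (u t ∈ H10sigma Ω ∨
      Good T (fun τ => ‖G τ‖ ^ 2) θ t ∨ Small T (fun τ => ‖G τ‖ ^ 2) σ S t)}) = 0 := by
  have h1 := good_null hΩ hν hT hu hθ0 hθ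
  have h2 := small_null (Ω := (Ω : Set H772R2.NS.E3)) hΩ hν hT (toNS hu) (ii_of_on hT hf) hσ hS
  refine measure_mono_null ?_ (measure_union_null h1 h2)
  rintro _ ⟨t, ⟨ht, h3⟩, rfl⟩
  rcases h3 with h3 | h3 | h3
  · exact Or.inl ⟨t, ⟨ht, Or.inl h3⟩, rfl⟩
  · exact Or.inl ⟨t, ⟨ht, Or.inr h3⟩, rfl⟩
  · exact Or.inr ⟨t, ⟨ht, h3⟩, (pub_defect_eq hΩ hν hT hu ht).symm⟩

theorem pub_darboux (hΩ : IsOpen Ω) (hν : 0 ≤ ν) (hT : 0 < T)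
    (hu : IsWeakSolution Ω ν T u G f) (hJ : ∀ t ∈ Icc 0 T, NoJump T u t)
    {a b : ℝ} (ha : a ∈ Icc 0 T) (hb : b ∈ Icc 0 T) :
    uIcc (energyDefect ν u G f a) (energyDefect ν u G f b) ⊆ energyDefect ν u G f '' uIcc a b := by
  have key := ns_darboux (Ω := (Ω : Set H772R2.NS.E3)) hΩ hν hT (toNS hu) hJ ha hb
  rw [pub_defect_eq hΩ hν hT hu ha, pub_defect_eq hΩ hν hT hu hb]
  refine key.trans ?_
  rintro _ ⟨t, ht, rfl⟩
  have htI : t ∈ Icc 0 T := uIcc_subset_Icc ha hb ht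
  exact ⟨t, ht, pub_defect_eq hΩ hν hT hu htI⟩

theorem pub_small_eq (hΩ : IsOpen Ω) (hν : 0 ≤ ν) (hT : 0 < T)
    (hu : IsWeakSolution Ω ν T u G f) (hf : IntegrableOn (fun τ => ‖f τ‖ ^ 2) (Ioo 0 T))
    (hθ0 : ∀ n t, 0 ≤ θ n t) (hθ : ∀ n, IntegrableOn (θ n) (Ioo 0 T))
    (hσ : ∀ n, 0 < σ n ∧ σ n ≤ 1 / 2) (hS : ∀ n, μH[σ n] (S n) = 0)
    (hN : N.Countable) (hJ : ∀ t ∈ N, NoJump T u t)
    (hall : ∀ t ∈ rough T (energyDefect ν u G f), t ∈ N ∨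
      Good T (fun τ => ‖G τ‖ ^ 2) θ t ∨ Small T (fun τ => ‖G τ‖ ^ 2) σ S t) :
    ∀ t ∈ Icc 0 T, energyDefect ν u G f t = 0 := by
  have hg0 : ∀ t, 0 ≤ (fun τ => ‖G τ‖ ^ 2) t := fun t => by positivity
  have hgi := ii_of_on hT (pub_G2 hu)
  intro t ht
  rw [pub_defect_eq hΩ hν hT hu ht]
  rw [pub_rough hΩ hν hT hu] at hall
  refine small_eq (Ω := (Ω : Set H772R2.NS.E3)) hΩ hν hT (toNS hu) (ii_of_on hT hf)
    (consW_nonneg hg0 hθ0) (fun n => ii_of_on hT (consW_int (pub_G2 hu) hθ n)) hσ hS hN hJ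
    (fun s hs => ?_) t ht
  rcases hall s hs with h1 | h1 | h1
  · exact Or.inl h1
  · exact Or.inr (Or.inl (good_tame hg0 hgi hs.1 h1))
  · exact Or.inr (Or.inr h1)

end Pub

end Pool.Agent.Helper30.DM
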