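import Mathlib
import Pool.Agent.Helper30.DM.Main

set_option autoImplicit false
set_option linter.unusedSectionVars false

/-!
Exceptional times of small Hausdorff dimension.
-/

open MeasureTheory Set Filter Topology
open scoped InnerProductSpace ENNReal ContDiff NNReal

namespace Pool.Agent.Helper30.DM

open Pool.Agent.TH301.EQ

theorem expAt_mono {T : ℝ} {g : ℝ → ℝ} {a a' t : ℝ} (h : ExpAt T g a t) (ha : a' ≤ a) :
    ExpAt T g a' t := by
  obtain ⟨C, δ, hδ, h⟩ := h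
  refine ⟨max C 0, min δ 1, lt_min hδ one_pos, fun x y hx hxt hty hy hl => ?_⟩
  have h1 := h x y hx hxt hty hy (hl.trans (min_le_left _ _))
  have h2 : y - x ≤ 1 := hl.trans (min_le_right _ _)
  have h3 : 0 ≤ y - x := by linarith
  rcases h3.eq_or_lt with h4 | h4
  · have h5 : y = x := by linarith
    rw [h5, intervalIntegral.integral_same]
    exact mul_nonneg (le_max_right _ _) (Real.rpow_nonneg (by simp) _)
  · refine h1.trans ?_
    have b1 : 0 ≤ (y - x) ^ a := Real.rpow_nonneg h3 _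
    exact (mul_le_mul_of_nonneg_right (le_max_left C 0) b1).trans
      (mul_le_mul_of_nonneg_left (Real.rpow_le_rpow_of_exponent_ge h4 h2 ha) (le_max_right _ _))

/-- `t` lies in one of the sets `S n`, and the dissipation has there an exponent which is greater
than `(1 + 3 d) / 5`, where `d` is the Hausdorff dimension of `S n`. -/
def DimSmall (T : ℝ) (g : ℝ → ℝ) (S : ℕ → Set ℝ) (t : ℝ) : Prop :=
  ∃ n, t ∈ S n ∧ ∃ a, (1 + 3 * (dimH (S n)).toReal) / 5 < a ∧ ExpAt T g a t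

/-- the exponents -/
noncomputable def sg (S : ℕ → Set ℝ) (k : ℕ) : ℝ :=
  (dimH (S k.unpair.1)).toReal + (1 / 2 - (dimH (S k.unpair.1)).toReal) / ((k.unpair.2 : ℝ) + 1)

theorem toReal_lt {S : ℕ → Set ℝ} (hS : ∀ n, dimH (S n) < 1 / 2) (n : ℕ) :
    (dimH (S n)).toReal < 1 / 2 := by
  have h1 : dimH (S n) ≠ ⊤ := ((hS n).trans_le le_top).ne
  have h2 := (ENNReal.toReal_lt_toReal h1 (by simp)).mpr (hS n)
  simpa using h2

theorem sg_range {S : ℕ → Set ℝ} (hS : ∀ n, dimH (S n) < 1 / 2) (k : ℕ) :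
    (dimH (S k.unpair.1)).toReal < sg S k ∧ sg S k ≤ 1 / 2 := by
  have h1 := toReal_lt hS k.unpair.1
  have h2 : (0 : ℝ) < (k.unpair.2 : ℝ) + 1 := by positivity
  have h3 : 0 < (1 / 2 - (dimH (S k.unpair.1)).toReal) / ((k.unpair.2 : ℝ) + 1) :=
    div_pos (by linarith) h2
  have h4 : (1 / 2 - (dimH (S k.unpair.1)).toReal) / ((k.unpair.2 : ℝ) + 1)
      ≤ 1 / 2 - (dimH (S k.unpair.1)).toReal := by
    refine div_le_self (by linarith) ?_
    have : (0 : ℝ) ≤ (k.unpair.2 : ℝ) := by positivity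
    linarith
  unfold sg
  constructor <;> linarith

theorem sg_pos {S : ℕ → Set ℝ} (hS : ∀ n, dimH (S n) < 1 / 2) (k : ℕ) :
    0 < sg S k ∧ sg S k ≤ 1 / 2 :=
  ⟨ENNReal.toReal_nonneg.trans_lt (sg_range hS k).1, (sg_range hS k).2⟩

theorem sg_null {S : ℕ → Set ℝ} (hS : ∀ n, dimH (S n) < 1 / 2) (k : ℕ) :
    μH[sg S k] (S k.unpair.1) = 0 := by
  obtain ⟨r, hr⟩ : ∃ r : ℝ≥0, (r : ℝ) = sg S k := ⟨⟨sg S k, (sg_pos hS k).1.le⟩, rfl⟩
  rw [← hr]
  refine hausdorffMeasure_of_dimH_lt ?_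
  have h1 : dimH (S k.unpair.1) ≠ ⊤ := ((hS _).trans_le le_top).ne
  rw [← ENNReal.ofReal_toReal h1, ← ENNReal.ofReal_coe_nnreal, hr]
  exact (ENNReal.ofReal_lt_ofReal_iff (sg_pos hS k).1).mpr (sg_range hS k).1

theorem small_of_dim {T : ℝ} {g : ℝ → ℝ} {S : ℕ → Set ℝ} {t : ℝ} (h : DimSmall T g S t) :
    Small T g (sg S) (fun k => S k.unpair.1) t := by
  obtain ⟨n, hn, a, ha, hE⟩ := h
  set d := (dimH (S n)).toReal with hd
  have hlim : Tendsto (fun k : ℕ => (1 + 3 * (d + (1 / 2 - d) / ((k : ℝ) + 1))) / 5) atTop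
      (𝓝 ((1 + 3 * d) / 5)) := by
    have h1 : Tendsto (fun k : ℕ => (1 / 2 - d) * (1 / ((k : ℝ) + 1))) atTop (𝓝 ((1 / 2 - d) * 0)) :=
      tendsto_one_div_add_atTop_nhds_zero_nat.const_mul _
    rw [mul_zero] at h1
    have h2 := ((((h1.const_add d).const_mul 3).const_add 1).div_const 5)
    rw [add_zero] at h2
    refine h2.congr fun k => ?_
    ring
  obtain ⟨k, hk⟩ := (hlim.eventually_lt_const ha).exists
  refine ⟨Nat.pair n k, by simpa using hn, expAt_mono hE ?_⟩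
  unfold sg
  rw [Nat.unpair_pair]
  exact hk.le

section Pub

open H772R2.NS.Pub

variable {Ω : Set R3} {ν T : ℝ} {u : ℝ → L2 Ω R3} {G : ℝ → L2 Ω Mat} {f : ℝ → L2 Ω R3}
  {θ : ℕ → ℝ → ℝ} {N : Set ℝ} {S : ℕ → Set ℝ}

theorem pub_dim_eq (hΩ : IsOpen Ω) (hν : 0 ≤ ν) (hT : 0 < T)
    (hu : IsWeakSolution Ω ν T u G f) (hf : IntegrableOn (fun τ => ‖f τ‖ ^ 2) (Ioo 0 T))
    (hθ0 : ∀ n t, 0 ≤ θ n t) (hθ : ∀ n, IntegrableOn (θ n) (Ioo 0 T))
    (hS : ∀ n, dimH (S n) < 1 / 2)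
    (hN : N.Countable) (hJ : ∀ t ∈ N, NoJump T u t)
    (hall : ∀ t ∈ rough T (energyDefect ν u G f), t ∈ N ∨
      Good T (fun τ => ‖G τ‖ ^ 2) θ t ∨ DimSmall T (fun τ => ‖G τ‖ ^ 2) S t) :
    ∀ t ∈ Icc 0 T, energyDefect ν u G f t = 0 := by
  refine pub_small_eq hΩ hν hT hu hf hθ0 hθ (sg_pos hS) (sg_null hS) hN hJ fun t ht => ?_
  rcases hall t ht with h | h | h
  · exact Or.inl h
  · exact Or.inr (Or.inl h)
  · exact Or.inr (Or.inr (small_of_dim h))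

end Pub

end Pool.Agent.Helper30.DM
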